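import Pool.Agent.Helper89.TAY.Tay
import Pool.Agent.Helper89.MG.Typf

/-! TAYLOR (row TAY): over a label without leak at a window `c > 0` the functions of the algebra of a leaf, which are
typically of size one at the point and at most `2 ^ (Λ n)` on the unit cube, are polynomials of degree `κ` with tame
coefficients on the window, in the rescaled parameter, up to the error `2 ^ (-u n)`, if `Λ + u ≤ c (κ + 1)`. -/

set_option autoImplicit false

namespace Pool.Agent.Helper89.TAY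

open Finset Filter Topology Matrix Pool.Agent.Helper69.RK Pool.Agent.Helper31.EC Pool.Agent.Helper31.EC.Sp
open Pool.Agent.Helper40.EL Pool.Agent.Helper84.MT Pool.Agent.Helper3.LF Pool.Agent.Helper89.LX

noncomputable section

theorem CC_Sub {S : Sp} (κ : ℕ) {K : ℕ → ℝ} (hK : S.Sub K) (j : ℕ) : S.Sub (fun k => CC κ (K k) j) := by
  induction j with
  | zero => exact S.Sub_const le_rfl
  | succ j ih =>
    have h1 : S.Sub (fun k => K k ^ (κ + 1) * (1 + (κ + 1) * CC κ (K k) j)) :=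
      (Sub_pow' hK _).mul ((S.Sub_const zero_le_one).add ((S.Sub_const (show (0 : ℝ) ≤ κ + 1 by positivity)).mul ih))
    exact h1

theorem CM_Sub {S : Sp} (e κ : ℕ) {K : ℕ → ℝ} (hK : S.Sub K) : S.Sub (fun k => CM e κ (K k)) :=
  Sub_pow' ((S.Sub_const (show (0 : ℝ) ≤ κ + 1 by positivity)).mul (Sub_pow' hK _)) _

theorem CT_Sub {S : Sp} (e κ : ℕ) {K : ℕ → ℝ} (hK : S.Sub K) : S.Sub (fun k => CT e κ (K k)) :=
  ((CC_Sub κ hK e).mul (S.Sub_const (show (0 : ℝ) ≤ 2 ^ (κ + 1) by positivity))).add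
    ((S.Sub_const (show (0 : ℝ) ≤ ((e * κ : ℕ) + 1) ^ e by positivity)).mul
      ((CM_Sub e κ hK).mul (S.Sub_const (show (0 : ℝ) ≤ 2 ^ (e * κ) by positivity))))

section
variable {S : Sp} {M : ℕ} {E : ℕ → ℕ} {Q : S.VV M} (l : Leaf S Q E)

/-- the corner of the cell of level `c` of the parameter -/
def crn (c : ℝ) (k : ℕ) (ω : (S.F k).Ω) : Fin l.e → ℝ := fun i => S.dl c k * ⌊l.Y.v k ω i / S.dl c k⌋

theorem crn_lt (c : ℝ) (k : ℕ) (ω : (S.F k).Ω) (i : Fin l.e) : |crn l c k ω i - l.Y.v k ω i| < S.dl c k := by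
  have h1 := (floor_div_iff (S.dl_pos c k) (l.Y.v k ω i) _).1 rfl
  show |S.dl c k * ⌊l.Y.v k ω i / S.dl c k⌋ - l.Y.v k ω i| < _
  rw [abs_lt]
  constructor <;> linarith [h1.1, h1.2, S.dl_pos c k]

/-- the rescaled parameter lies in the unit cube -/
theorem crn_mem (c : ℝ) (k : ℕ) (ω : (S.F k).Ω) (i : Fin l.e) :
    (l.Y.v k ω i - crn l c k ω i) / S.dl c k ∈ Set.Ico (0 : ℝ) 1 := by
  have hd := S.dl_pos c k
  have h1 := (floor_div_iff hd (l.Y.v k ω i) _).1 rfl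
  have h2 : crn l c k ω i = S.dl c k * ⌊l.Y.v k ω i / S.dl c k⌋ := rfl
  constructor
  · apply div_nonneg _ hd.le
    rw [h2]
    linarith [h1.1]
  · rw [div_lt_one hd, h2]
    linarith [h1.2]

/-- Bernstein inequality for the algebra of a leaf -/
theorem leaf_axB (D : ℕ) : ∃ K : ℕ → ℝ, S.Sub K ∧ (∀ᶠ k in UF, 1 ≤ K k) ∧ ∀ᶠ k in UF, ∀ ω, (S.F k).μ ω ≠ 0 →
    ∀ f ∈ l.al k ω D, AxB (K k) (l.Y.v k ω) f := by
  obtain ⟨K, hK, hs⟩ := leaf_axS l D
  refine ⟨fun k => K k + 1, hK.add (S.Sub_const zero_le_one), ?_, ?_⟩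
  · filter_upwards [hK.1] with k hk
    linarith
  · filter_upwards [hs, hK.1] with k hk hK0 ω hω f hf y hy j α β hα hβ
    exact (hk ω hω f hf y hy j α β hα hβ).2.mono (by linarith)

/-- TAYLOR POLYNOMIALS on the window `c` -/
theorem tay_leaf {c : ℝ} (h0 : 0 < c) (h1 : c < 1) (L : Lab S) (hL : Nul S (fun k => (L k).leak (l.win c k)))
    {D κ : ℕ} (f : ∀ k, (L k).T.Ω → (Fin l.e → ℝ) → ℝ)
    (hf : ∀ᶠ k in UF, ∀ w, (L k).T.μ w ≠ 0 → f k w ∈ Cl (l.Y.v k ((L k).p.π w)) (l.al k ((L k).p.π w)) D)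
    (hm : ∀ᶠ k in UF, ∀ w w', (L k).T.μ w ≠ 0 → (L k).T.μ w' ≠ 0 → (L k).T.Z w w' → (L k).V w w' →
      l.La k ((L k).p.π w) ((L k).p.π w') → (∀ i, ⌊l.Y.v k ((L k).p.π w) i / S.dl c k⌋ =
        ⌊l.Y.v k ((L k).p.π w') i / S.dl c k⌋) → f k w = f k w')
    {Λ u : ℝ} (hκ : Λ + u ≤ c * (κ + 1)) {K₀ : ℕ → ℝ} (hK₀ : S.Sub K₀)
    (hA : Typ (S := L.sp) (fun k w => ∀ y : Fin l.e → ℝ, (∀ i, |y i - l.Y.v k ((L k).p.π w) i| < 1) →
      |f k w y| ≤ K₀ k * 2 ^ (Λ * (S.F k).n)))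
    (hT : Typ (S := L.sp) (fun k w => |f k w (l.Y.v k ((L k).p.π w))| ≤ K₀ k)) :
    ∃ G : ∀ k, (L k).T.Ω → MvPolynomial (Fin l.e) ℝ, (∀ k w, (G k w).totalDegree ≤ κ) ∧
      (∀ᶠ k in UF, ∀ w w', (L k).T.μ w ≠ 0 → (L k).T.μ w' ≠ 0 → (L k).T.Z w w' → (L k).V w w' →
        l.La k ((L k).p.π w) ((L k).p.π w') → (∀ i, ⌊l.Y.v k ((L k).p.π w) i / S.dl c k⌋ =
          ⌊l.Y.v k ((L k).p.π w') i / S.dl c k⌋) → G k w = G k w') ∧
      ∃ K' : ℕ → ℝ, S.Sub K' ∧ Typ (S := L.sp) (fun k w => (∀ m, |(G k w).coeff m| ≤ K' k) ∧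
        ∀ y : Fin l.e → ℝ, (∀ i, |y i - l.Y.v k ((L k).p.π w) i| < S.dl c k) →
          |f k w y - MvPolynomial.eval (fun i => (y i - crn l c k ((L k).p.π w) i) / S.dl c k) (G k w)| ≤
            K' k * S.dl u k) := by
  classical
  obtain ⟨K, hK, hK1, hB⟩ := leaf_axB l (D + l.e * (κ + 1))
  obtain ⟨K1, hK1', hT1⟩ := typ_al l h0.le h1 L hL (D := D) f (by
    filter_upwards [hf] with k hk w hw
    obtain ⟨g, hg, hfg⟩ := hk w hw
    exact ⟨g, hg, fun y hy => (hfg y hy).symm⟩) (κ := fun _ => 1) (S.Sub_const zero_le_one) (by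
    filter_upwards [hm] with k hk w w' hw hw' hZ hV hLa hc y _
    rw [hk w w' hw hw' hZ hV hLa hc, one_mul])
  refine ⟨fun k w => tayG κ (S.dl c k) (crn l c k ((L k).p.π w)) (f k w), fun k w => tayG_deg _ _ _ _, ?_,
    fun k => CM l.e κ (K k) * (K1 k * K₀ k) + CT l.e κ (K k) * K₀ k,
    ((CM_Sub l.e κ hK).mul (hK1'.mul hK₀)).add ((CT_Sub l.e κ hK).mul hK₀), ?_⟩
  · filter_upwards [hm] with k hk w w' hw hw' hZ hV hLa hc
    have h2 : crn l c k ((L k).p.π w) = crn l c k ((L k).p.π w') := by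
      funext i
      show S.dl c k * _ = S.dl c k * _
      rw [hc i]
    rw [h2, hk w w' hw hw' hZ hV hLa hc]
  · have hlarge : ∀ᶠ k in UF, 1 / c ≤ (S.F k).n := S.lim.eventually (eventually_ge_atTop _)
    refine ((hT1.and hA).and hT).mono ?_
    filter_upwards [hf, hB, hK1, hK1'.1, hK₀.1, l.alg, hlarge] with k g1 g2 g3 g4 g5 g6 g7 w hw g8
    obtain ⟨⟨g8, g9⟩, g10⟩ := g8
    have hn := (S.F k).pos
    have hω := (L k).p.supp w hw
    rw [div_le_iff₀ h0] at g7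
    have hd := S.dl_pos c k
    have hd2 : 2 * S.dl c k ≤ 1 := by
      have e1 : S.dl c k ≤ 2 ^ (-(1 : ℝ)) := by
        unfold Sp.dl
        apply Real.rpow_le_rpow_of_exponent_le (by norm_num)
        linarith
      have e2 : (2 : ℝ) ^ (-(1 : ℝ)) = 1 / 2 := by
        rw [Real.rpow_neg_one]
        norm_num
      rw [e2] at e1
      linarith
    obtain ⟨a1, a2⟩ := tayG_spec (K := K k) (Dm := D + l.e * (κ + 1)) (g6 _ hω) g3 (g2 _ hω) κ hd hd2
      (crn l c k ((L k).p.π w)) (fun i => crn_lt l c k _ i) (D := D) (by omega) (g1 w hw)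
      (A := K₀ k * 2 ^ (Λ * (S.F k).n)) (B := K1 k * K₀ k) g9
      (fun y hy => (g8 y hy).trans (mul_le_mul_of_nonneg_left g10 g4))
    have hCM := CM_nonneg l.e κ (K := K k) (by linarith)
    have hCT := CT_nonneg l.e κ (K := K k) (by linarith)
    refine ⟨fun m => (a1 m).trans ?_, fun y hy => (a2 y hy).trans ?_⟩
    · have : 0 ≤ CT l.e κ (K k) * K₀ k := by positivity
      linarith
    · have e1 : S.dl c k ^ (κ + 1) = 2 ^ (-(c * (κ + 1) * (S.F k).n)) := by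
        unfold Sp.dl
        rw [← Real.rpow_natCast, ← Real.rpow_mul (by norm_num)]
        congr 1
        push_cast
        ring
      have e2 : (2 : ℝ) ^ (Λ * (S.F k).n) * S.dl c k ^ (κ + 1) ≤ S.dl u k := by
        rw [e1, ← Real.rpow_add (by norm_num)]
        unfold Sp.dl
        apply Real.rpow_le_rpow_of_exponent_le (by norm_num)
        nlinarith
      have e3 : CT l.e κ (K k) * (K₀ k * 2 ^ (Λ * (S.F k).n)) * S.dl c k ^ (κ + 1) =
          CT l.e κ (K k) * K₀ k * (2 ^ (Λ * (S.F k).n) * S.dl c k ^ (κ + 1)) := by ring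
      rw [e3]
      have h2 : 0 ≤ CM l.e κ (K k) * (K1 k * K₀ k) := by positivity
      have h3 : 0 ≤ CT l.e κ (K k) * K₀ k := by positivity
      calc CT l.e κ (K k) * K₀ k * (2 ^ (Λ * (S.F k).n) * S.dl c k ^ (κ + 1)) ≤
            CT l.e κ (K k) * K₀ k * S.dl u k := mul_le_mul_of_nonneg_left e2 h3
        _ ≤ _ := mul_le_mul_of_nonneg_right (by linarith) (S.dl_pos u k).le

end

end

end Pool.Agent.Helper89.TAY
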