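import Pool.Agent.Helper26.MT.Ze
import Pool.Agent.Helper84.MT.Fun
import Pool.Agent.Helper81.MT.Trn
import Pool.Agent.Helper89.TAY.Lf

/-! AFFINE ZOOM WITH POLYNOMIAL LEAVES (row TAY of MAX): the zoom of a system of leaves over a Markov label of the window
`c > 0`, truncated to the level `t` of the zoom (level `r = c + (1 - c) t` of the system), has polynomial leaves of degree
`g`, if `r ≤ c (g + 1)`, whatever the complexity of the leaves of the system. The point, the windows, the conditions, the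
labels and the canonical forms are those of the truncated zoom. -/

set_option autoImplicit false

namespace Pool.Agent.Helper89.TAY

open Finset Filter Topology Matrix Pool.Agent.Helper69.RK Pool.Agent.Helper31.EC Pool.Agent.Helper31.EC.Sp
open Pool.Agent.Helper40.EL Pool.Agent.Helper84.MT Pool.Agent.Helper3.LF Pool.Agent.Helper89.LX

noncomputable section

section
variable {S : Sp} {M : ℕ} {E : ℕ → ℕ} {ι : Type} {s : MSys S M E ι} (Z : ZM s)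

/-- the scaled coordinates of the chart -/
def sF (l : Leaf S s.Q E) (k : ℕ) (ω : (S.F k).Ω) (j : Fin M) (y : Fin l.e → ℝ) : ℝ :=
  l.F k ω y j / S.dl Z.c k - ⌊s.Q.v k ω j / S.dl Z.c k⌋

/-- the Taylor polynomials of the chart of the zoom -/
def pG (l : Leaf S s.Q E) (g k : ℕ) (ω : (Z.l k).T.Ω) (j : Fin M) : MvPolynomial (Fin l.e) ℝ :=
  tayG g (S.dl Z.c k) (crn l Z.c k ((Z.l k).p.π ω)) (sF Z l k ((Z.l k).p.π ω) j)

theorem pG_deg (l : Leaf S s.Q E) (g k : ℕ) (ω : (Z.l k).T.Ω) (j : Fin M) : (pG Z l g k ω j).totalDegree ≤ g :=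
  tayG_deg _ _ _ _

theorem sF_mem (l : Leaf S s.Q E) : ∀ᶠ k in UF, ∀ ω, (S.F k).μ ω ≠ 0 → ∀ j,
    sF Z l k ω j ∈ Cl (l.Y.v k ω) (l.al k ω) 1 := by
  filter_upwards [l.alg, l.crF] with k h1 h2 ω hω j
  refine ⟨fun y => (S.dl Z.c k)⁻¹ * l.F k ω y j + -(⌊s.Q.v k ω j / S.dl Z.c k⌋ : ℝ),
    (h1 ω hω).add 1 _ _ ((h1 ω hω).smul (h2 ω hω j) _) ((h1 ω hω).const' 1 _), fun y _ => ?_⟩
  show l.F k ω y j / S.dl Z.c k - ⌊s.Q.v k ω j / S.dl Z.c k⌋ = _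
  rw [div_eq_inv_mul, sub_eq_add_neg]

/-- sizes of the scaled coordinates -/
theorem sF_bd (l : Leaf S s.Q E) : ∃ K : ℕ → ℝ, S.Sub K ∧ ∀ᶠ k in UF, ∀ ω, (S.F k).μ ω ≠ 0 → ∀ j,
    (∀ y : Fin l.e → ℝ, (∀ i, |y i - l.Y.v k ω i| < 1) → |sF Z l k ω j y| ≤ K k / S.dl Z.c k) ∧
    ∀ y : Fin l.e → ℝ, (∀ i, |y i - l.Y.v k ω i| < S.dl Z.c k) → |sF Z l k ω j y| ≤ K k := by
  obtain ⟨K, hK, hb⟩ := l.lip
  obtain ⟨L, hL, hb'⟩ := l.pt
  refine ⟨fun k => K k * l.e + L k + 1,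
    ((hK.mul (S.Sub_const (Nat.cast_nonneg _))).add hL).add (S.Sub_const zero_le_one), ?_⟩
  filter_upwards [hb, hb', hK.1, hL.1] with k h1 h2 hK0 hL0 ω hω j
  have hd := S.dl_pos Z.c k
  have hd1 := Z.dl_c_le k
  have h7 : S.dl 1 k ≤ S.dl Z.c k := S.dl_anti Z.h1.le k
  have h6 := h2 ω hω j
  have key : ∀ (r : ℝ), 0 < r → r ≤ 1 → S.dl Z.c k ≤ r → ∀ y : Fin l.e → ℝ, (∀ i, |y i - l.Y.v k ω i| < r) →
      |sF Z l k ω j y| ≤ (K k * l.e + L k + 1) * (r / S.dl Z.c k) := by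
    intro r hr hr1 hrc y hy
    have h4 := h1 ω hω y (l.Y.v k ω) (fun i => (hy i).le.trans hr1)
      (fun i => by rw [sub_self, abs_zero]; exact zero_le_one) j
    have h5 : ∑ i, |y i - l.Y.v k ω i| ≤ l.e * r := by
      refine (Finset.sum_le_sum fun i _ => (hy i).le).trans ?_
      rw [Finset.sum_const, Finset.card_univ, Fintype.card_fin, nsmul_eq_mul]
    have h8 : K k * ∑ i, |y i - l.Y.v k ω i| ≤ K k * (l.e * r) := mul_le_mul_of_nonneg_left h5 hK0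
    have h9 : L k * S.dl 1 k ≤ L k * r := mul_le_mul_of_nonneg_left (h7.trans hrc) hL0
    have h10 := Int.floor_le (s.Q.v k ω j / S.dl Z.c k)
    have h11 := Int.lt_floor_add_one (s.Q.v k ω j / S.dl Z.c k)
    have e1 : sF Z l k ω j y = (l.F k ω y j - l.F k ω (l.Y.v k ω) j) / S.dl Z.c k -
        (s.Q.v k ω j - l.F k ω (l.Y.v k ω) j) / S.dl Z.c k +
        (s.Q.v k ω j / S.dl Z.c k - ⌊s.Q.v k ω j / S.dl Z.c k⌋) := by
      unfold sF
      ring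
    have h12 : |(l.F k ω y j - l.F k ω (l.Y.v k ω) j) / S.dl Z.c k| ≤ K k * l.e * (r / S.dl Z.c k) := by
      rw [abs_div, abs_of_pos hd, div_le_iff₀ hd]
      refine h4.trans (h8.trans (le_of_eq ?_))
      field_simp
    have h13 : |(s.Q.v k ω j - l.F k ω (l.Y.v k ω) j) / S.dl Z.c k| ≤ L k * (r / S.dl Z.c k) := by
      rw [abs_div, abs_of_pos hd, div_le_iff₀ hd]
      refine (h6.trans h9).trans (le_of_eq ?_)
      field_simp
    have h14 : |s.Q.v k ω j / S.dl Z.c k - ⌊s.Q.v k ω j / S.dl Z.c k⌋| ≤ r / S.dl Z.c k := by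
      have h15 : 1 ≤ r / S.dl Z.c k := (one_le_div hd).2 hrc
      rw [abs_le]
      constructor <;> linarith
    rw [e1]
    refine (abs_add_le _ _).trans ((add_le_add ((abs_sub _ _).trans (add_le_add h12 h13)) h14).trans (le_of_eq ?_))
    ring
  constructor
  · intro y hy
    refine (key 1 one_pos le_rfl hd1 y hy).trans (le_of_eq ?_)
    rw [mul_one_div]
  · intro y hy
    refine (key (S.dl Z.c k) hd hd1 le_rfl y hy).trans (le_of_eq ?_)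
    rw [div_self hd.ne', mul_one]

/-- the resolution of the window is small -/
theorem dl_half {c : ℝ} (h0 : 0 < c) : ∀ᶠ k in UF, 2 * S.dl c k ≤ 1 := by
  have hlarge : ∀ᶠ k in UF, 1 / c ≤ (S.F k).n := S.lim.eventually (eventually_ge_atTop _)
  filter_upwards [hlarge] with k g7
  rw [div_le_iff₀ h0] at g7
  have e1 : S.dl c k ≤ 2 ^ (-(1 : ℝ)) := by
    unfold Sp.dl
    apply Real.rpow_le_rpow_of_exponent_le (by norm_num)
    linarith
  have e2 : (2 : ℝ) ^ (-(1 : ℝ)) = 1 / 2 := by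
    rw [Real.rpow_neg_one]
    norm_num
  rw [e2] at e1
  linarith

/-- COEFFICIENTS AND ERRORS of the Taylor polynomials of the zoom, everywhere -/
theorem pG_spec (hc : 0 < Z.c) (l : Leaf S s.Q E) (g : ℕ) : ∃ K : ℕ → ℝ, S.Sub K ∧ ∀ᶠ k in UF,
    ∀ ω : (Z.l k).T.Ω, (Z.l k).T.μ ω ≠ 0 → ∀ j, (∀ m, |(pG Z l g k ω j).coeff m| ≤ K k) ∧
      ∀ y : Fin l.e → ℝ, (∀ i, |y i - l.Y.v k ((Z.l k).p.π ω) i| < S.dl Z.c k) →
        |sF Z l k ((Z.l k).p.π ω) j y - MvPolynomial.eval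
          (fun i => (y i - crn l Z.c k ((Z.l k).p.π ω) i) / S.dl Z.c k) (pG Z l g k ω j)| ≤ K k * S.dl (Z.c * g) k := by
  obtain ⟨K, hK, hK1, hB⟩ := leaf_axB l (1 + l.e * (g + 1))
  obtain ⟨K₀, hK₀, hb⟩ := sF_bd Z l
  refine ⟨fun k => CM l.e g (K k) * K₀ k + CT l.e g (K k) * K₀ k,
    ((CM_Sub l.e g hK).mul hK₀).add ((CT_Sub l.e g hK).mul hK₀), ?_⟩
  filter_upwards [hB, hK1, hb, hK₀.1, l.alg, sF_mem Z l, dl_half (S := S) hc] with k g1 g2 g3 g4 g5 g6 g7 ω hω' j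
  have hω := (Z.l k).p.supp ω hω'
  have hd := S.dl_pos Z.c k
  obtain ⟨a1, a2⟩ := tayG_spec (K := K k) (Dm := 1 + l.e * (g + 1)) (g5 _ hω) g2 (g1 _ hω) g hd g7
    (crn l Z.c k ((Z.l k).p.π ω)) (fun i => crn_lt l Z.c k _ i) (D := 1) (by omega) (g6 _ hω j)
    (A := K₀ k / S.dl Z.c k) (B := K₀ k) (g3 _ hω j).1 (g3 _ hω j).2
  have hCM := CM_nonneg l.e g (K := K k) (by linarith)
  have hCT := CT_nonneg l.e g (K := K k) (by linarith)
  refine ⟨fun m => (a1 m).trans ?_, fun y hy => (a2 y hy).trans ?_⟩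
  · have : 0 ≤ CT l.e g (K k) * K₀ k := by positivity
    linarith
  · have e1 : S.dl Z.c k ^ g = S.dl (Z.c * g) k := by
      unfold Sp.dl
      rw [← Real.rpow_natCast, ← Real.rpow_mul (by norm_num)]
      congr 1
      ring
    have e2 : CT l.e g (K k) * (K₀ k / S.dl Z.c k) * S.dl Z.c k ^ (g + 1) =
        CT l.e g (K k) * K₀ k * S.dl (Z.c * g) k := by
      rw [← e1, pow_succ]
      field_simp
    rw [e2]
    apply mul_le_mul_of_nonneg_right _ (S.dl_pos _ k).le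
    have : 0 ≤ CM l.e g (K k) * K₀ k := by positivity
    linarith

/-- the Taylor polynomials are functions of the window of the zoom -/
theorem pG_fn (l : Leaf S s.Q E) (g : ℕ) : ∀ᶠ k in UF, ∀ ω ω' : (Z.l k).T.Ω, (Z.l k).T.μ ω ≠ 0 →
    (Z.l k).T.μ ω' ≠ 0 → (Z.sp.F k).Z ω ω' → Z.zLa l k ω ω' → pG Z l g k ω = pG Z l g k ω' := by
  filter_upwards [l.fn] with k hk ω ω' a b g' r
  obtain ⟨g1, g2, g3⟩ := Z.hZ k ω ω' a b g'
  have h1 := hk _ _ (Z.supp k ω a) (Z.supp k ω' b) g3 r.1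
  have h2 := Z.cell k ω ω' a b g1 g2
  have h3 : l.Y.cellv Z.c k ((Z.l k).p.π ω) = l.Y.cellv Z.c k ((Z.l k).p.π ω') := r.2
  have h4 : crn l Z.c k ((Z.l k).p.π ω) = crn l Z.c k ((Z.l k).p.π ω') := by
    funext i
    have h5 : ⌊l.Y.v k ((Z.l k).p.π ω) i / S.dl Z.c k⌋ = ⌊l.Y.v k ((Z.l k).p.π ω') i / S.dl Z.c k⌋ := congrFun h3 i
    show S.dl Z.c k * _ = S.dl Z.c k * _
    rw [h5]
  funext j
  have h5 : sF Z l k ((Z.l k).p.π ω) j = sF Z l k ((Z.l k).p.π ω') j := by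
    funext y
    have h6 : ⌊s.Q.v k ((Z.l k).p.π ω) j / S.dl Z.c k⌋ = ⌊s.Q.v k ((Z.l k).p.π ω') j / S.dl Z.c k⌋ := congrFun h2 j
    show l.F k ((Z.l k).p.π ω) y j / S.dl Z.c k - ⌊s.Q.v k ((Z.l k).p.π ω) j / S.dl Z.c k⌋ =
      l.F k ((Z.l k).p.π ω') y j / S.dl Z.c k - ⌊s.Q.v k ((Z.l k).p.π ω') j / S.dl Z.c k⌋
    rw [h1, h6]
  unfold pG
  rw [h4, h5]

/-- THE TYPE of the truncated zoom with a polynomial chart -/
def pleaf (hc : 0 < Z.c) {t : ℝ} (h0 : 0 < t) (h1 : t ≤ 1) {g : ℕ} (hg : 1 ≤ g) (hr : Z.e * t ≤ Z.c * g)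
    (l : Leaf S s.Q E) (he : l.e ≤ g) (hl : Nul S (fun k => (Z.l k).leak (l.win Z.c k))) :
    Leaf (Z.sp.chg Z.sp.tr t h0) ((Z.fr s.Q).chg Z.sp.tr t h0) (lin g) :=
  Leaf.ofPoly g hg l.e he (Z.zLa l) ((Z.fr l.Y).chg Z.sp.tr t h0) (fun k ω j => pG Z l g k ω j)
    (fun k ω j => pG_deg Z l g k ω j) (by
      filter_upwards [pG_fn Z l g] with k hk ω ω' a b c d
      exact hk ω ω' a b c.2 d) (by
      obtain ⟨K, hK, hb⟩ := pG_spec Z hc l g
      refine ⟨K, chg_sub Z.sp.tr t h0 (Z.Sub_sp.mp hK), ?_⟩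
      filter_upwards [hb] with k hk ω hω j a
      exact (hk ω hω j).1 a) (by
      obtain ⟨K, hK, hb⟩ := pG_spec Z hc l g
      obtain ⟨L, hL, hb'⟩ := (Z.leaf l hl).pt
      refine ⟨fun k => L k + K k, (chg_sub Z.sp.tr t h0 hL).add (chg_sub Z.sp.tr t h0 (Z.Sub_sp.mp hK)), ?_⟩
      filter_upwards [hb, hb', hK.1, hL.1] with k h2 h3 hK0 hL0
      intro (ω : (Z.l k).T.Ω) hω j
      have h4 := h3 ω hω j
      have h5 := (h2 ω hω j).2 (l.Y.v k ((Z.l k).p.π ω)) (fun i => by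
        rw [sub_self, abs_zero]
        exact S.dl_pos Z.c k)
      have hd := S.dl_pos Z.c k
      have e1 : (fun i => (l.Y.v k ((Z.l k).p.π ω) i - crn l Z.c k ((Z.l k).p.π ω) i) / S.dl Z.c k) =
          (Z.fr l.Y).v k ω := by
        funext i
        show (l.Y.v k ((Z.l k).p.π ω) i - S.dl Z.c k * ⌊l.Y.v k ((Z.l k).p.π ω) i / S.dl Z.c k⌋) / S.dl Z.c k =
          l.Y.v k ((Z.l k).p.π ω) i / S.dl Z.c k - ⌊l.Y.v k ((Z.l k).p.π ω) i / S.dl Z.c k⌋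
        field_simp
      rw [e1] at h5
      have e2 : (Z.leaf l hl).F k ω ((Z.leaf l hl).Y.v k ω) j =
          sF Z l k ((Z.l k).p.π ω) j (l.Y.v k ((Z.l k).p.π ω)) := by
        show l.F k ((Z.l k).p.π ω) (Z.zA l k ω ((Z.fr l.Y).v k ω)) j / S.dl Z.c k -
          ⌊s.Q.v k ((Z.l k).p.π ω) j / S.dl Z.c k⌋ = _
        rw [Z.zA_Y l k ω]
        rfl
      rw [e2] at h4
      have h6 : (Z.sp.chg Z.sp.tr t h0).dl 1 k = S.dl (Z.e * t) k := by
        rw [chg_dl, mul_one, Z.sp_dl']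
      have h7 : Z.sp.dl 1 k ≤ S.dl (Z.e * t) k := by
        rw [Z.sp_dl']
        exact S.dl_anti (mul_le_mul_of_nonneg_left h1 Z.e_pos.le) k
      have h8 : S.dl (Z.c * g) k ≤ S.dl (Z.e * t) k := S.dl_anti hr k
      show |(Z.fr s.Q).v k ω j - MvPolynomial.eval ((Z.fr l.Y).v k ω) (pG Z l g k ω j)| ≤ (L k + K k) *
        (Z.sp.chg Z.sp.tr t h0).dl 1 k
      rw [h6]
      have h9 := abs_sub_le ((Z.fr s.Q).v k ω j) (sF Z l k ((Z.l k).p.π ω) j (l.Y.v k ((Z.l k).p.π ω)))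
        (MvPolynomial.eval ((Z.fr l.Y).v k ω) (pG Z l g k ω j))
      refine h9.trans ?_
      rw [add_mul]
      exact add_le_add (h4.trans (mul_le_mul_of_nonneg_left h7 hL0)) (h5.trans (mul_le_mul_of_nonneg_left h8 hK0)))
    ((Z.leaf l hl).trn t h0 h1).full

/-- THE AFFINE ZOOM, truncated, with polynomial leaves of degree `g` -/
def aff (hc : 0 < Z.c) {t : ℝ} (h0 : 0 < t) (h1 : t ≤ 1) {g : ℕ} (hg : 1 ≤ g) (hr : Z.e * t ≤ Z.c * g)
    (he : ∀ i, (s.lf i).e ≤ g) : MSys (Z.sp.chg Z.sp.tr t h0) M (lin g) ι :=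
  ⟨(Z.fr s.Q).chg Z.sp.tr t h0, fun i => pleaf Z hc h0 h1 hg hr (s.lf i) (he i) (Z.dm (some i))⟩

variable (hc : 0 < Z.c) {t : ℝ} (h0 : 0 < t) (h1 : t ≤ 1) {g : ℕ} (hg : 1 ≤ g) (hr : Z.e * t ≤ Z.c * g)
  (he : ∀ i, (s.lf i).e ≤ g)

theorem aff_Q : (aff Z hc h0 h1 hg hr he).Q = (Z.sys.trn t h0 h1).Q := rfl

theorem aff_win (b : ℝ) (i : ι) : ((aff Z hc h0 h1 hg hr he).lf i).win b = ((Z.sys.trn t h0 h1).lf i).win b := rfl

theorem aff_e (i : ι) : ((aff Z hc h0 h1 hg hr he).lf i).e = (s.lf i).e := rfl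

/-- THE CONDITIONS are the conditions of the truncated zoom -/
theorem aff_cnd (b : ℝ) : (aff Z hc h0 h1 hg hr he).cnd b = (Z.sys.trn t h0 h1).cnd b := by
  funext i
  rcases i with _ | i <;> rfl

theorem aff_DMc (b : ℝ) (l : Lab (Z.sp.chg Z.sp.tr t h0)) :
    (aff Z hc h0 h1 hg hr he).DMc b l ↔ (Z.sys.trn t h0 h1).DMc b l := by
  unfold MSys.DMc
  rw [aff_cnd]

theorem aff_IsKap (b : ℝ) (l : Lab (Z.sp.chg Z.sp.tr t h0)) :
    (aff Z hc h0 h1 hg hr he).IsKap b l ↔ (Z.sys.trn t h0 h1).IsKap b l := by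
  unfold MSys.IsKap
  rw [aff_cnd]

theorem aff_Con (b : ℝ) : (aff Z hc h0 h1 hg hr he).Con b ↔ (Z.sys.trn t h0 h1).Con b := by
  unfold MSys.Con
  constructor
  · intro h l hl
    exact h l ((aff_DMc Z hc h0 h1 hg hr he b l).2 hl)
  · intro h l hl
    exact h l ((aff_DMc Z hc h0 h1 hg hr he b l).1 hl)

/-- THE CANONICAL FORMS are the canonical forms of the truncated zoom -/
theorem aff_IsCan (D : ℕ) (b : ℝ) (x : ∀ k, FD ((Z.sp.chg Z.sp.tr t h0).F k) (Mon M D)) :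
    (aff Z hc h0 h1 hg hr he).IsCan D b x ↔ (Z.sys.trn t h0 h1).IsCan D b x := by
  have h2 := aff_IsKap Z hc h0 h1 hg hr he b (fun k => (x k).l)
  have h3 := aff_cnd Z hc h0 h1 hg hr he b
  constructor
  · rintro ⟨a1, a2⟩
    rw [h3] at a1
    exact ⟨a1, h2.1 a2⟩
  · rintro ⟨a1, a2⟩
    refine ⟨?_, h2.2 a2⟩
    rw [h3]
    exact a1

/-- THE VOLUMES are the volumes of the truncated zoom -/
theorem aff_vol [Finite ι] (D : ℕ) (b : ℝ) : (aff Z hc h0 h1 hg hr he).vol D b = (Z.sys.trn t h0 h1).vol D b := by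
  obtain ⟨x, hx⟩ := (Z.sys.trn t h0 h1).exists_can D b
  rw [← (Z.sys.trn t h0 h1).vol_eq hx.1]
  exact ((aff Z hc h0 h1 hg hr he).vol_eq ((aff_IsCan Z hc h0 h1 hg hr he D b x).2 hx).1).symm

/-- over a maximal label of the window the affine zoom is connected -/
theorem aff_con (h : s.IsKap Z.c Z.l) : (aff Z hc h0 h1 hg hr he).Con 0 :=
  (aff_Con Z hc h0 h1 hg hr he 0).2 (MSys.Con.trn (by rw [mul_zero]) (Z.Con_zero h))

end

end

end Pool.Agent.Helper89.TAY
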