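import Pool.Agent.Helper84.MT.Seg

/-! TAYLOR polynomials of the functions of a filtered differential algebra, finite level: partial derivatives, the
Bernstein inequality, Taylor formula in one coordinate. -/

set_option autoImplicit false

namespace Pool.Agent.Helper89.TAY

open Finset Filter Topology Pool.Agent.Helper84.MT

noncomputable section

variable {e : ℕ}

/-- functions equal to a function of the algebra on the open cube -/
def Cl (Y : Fin e → ℝ) (al : ℕ → Set ((Fin e → ℝ) → ℝ)) (D : ℕ) : Set ((Fin e → ℝ) → ℝ) :=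
  {f | ∃ g ∈ al D, ∀ y : Fin e → ℝ, (∀ i, |y i - Y i| < 1) → f y = g y}

/-- the true partial derivative -/
def pd (i : Fin e) (f : (Fin e → ℝ) → ℝ) : (Fin e → ℝ) → ℝ :=
  fun y => deriv (fun t => f (Function.update y i t)) (y i)

/-- iterated partial derivative in one coordinate -/
def pdn (i : Fin e) (a : ℕ) (f : (Fin e → ℝ) → ℝ) : (Fin e → ℝ) → ℝ := (pd i)^[a] f

theorem pdn_zero (i : Fin e) (f : (Fin e → ℝ) → ℝ) : pdn i 0 f = f := rfl

theorem pdn_succ (i : Fin e) (a : ℕ) (f : (Fin e → ℝ) → ℝ) : pdn i (a + 1) f = pd i (pdn i a f) :=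
  Function.iterate_succ_apply' _ _ _

/-- Bernstein inequality on axis-parallel segments of the open cube -/
def AxB (K : ℝ) (Y : Fin e → ℝ) (f : (Fin e → ℝ) → ℝ) : Prop :=
  ∀ y : Fin e → ℝ, (∀ i, |y i - Y i| < 1) → ∀ (j : Fin e) (α β : ℝ), |α - Y j| < 1 → |β - Y j| < 1 →
    BmS K (fun u => f (Function.update y j (α + u * (β - α))))

theorem upd_lt {Y y : Fin e → ℝ} {ρ : ℝ} (hy : ∀ i, |y i - Y i| < ρ) {j : Fin e} {t : ℝ} (ht : |t - Y j| < ρ) :
    ∀ i, |Function.update y j t i - Y i| < ρ := by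
  intro i
  by_cases h : i = j
  · subst h
    rw [Function.update_self]
    exact ht
  · rw [Function.update_of_ne h]
    exact hy i

theorem seg_lt {a α β : ℝ} (hα : |α - a| < 1) (hβ : |β - a| < 1) {u : ℝ} (hu : u ∈ Set.Icc (0 : ℝ) 1) :
    |α + u * (β - α) - a| < 1 := by
  have e1 : α + u * (β - α) - a = (1 - u) * (α - a) + u * (β - a) := by ring
  rw [e1]
  rw [abs_lt] at hα hβ ⊢
  have h0 := hu.1
  have h1 := hu.2
  rcases eq_or_lt_of_le h0 with h2 | h2
  · rw [← h2]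
    constructor <;> linarith [hα.1, hα.2]
  · constructor <;> nlinarith [hα.1, hα.2, hβ.1, hβ.2]

theorem AxB.congr {K : ℝ} {Y : Fin e → ℝ} {f g : (Fin e → ℝ) → ℝ} (h : AxB K Y f)
    (hfg : ∀ y : Fin e → ℝ, (∀ i, |y i - Y i| < 1) → f y = g y) : AxB K Y g := by
  intro y hy j α β hα hβ A hA u hu u' hu'
  have h1 : ∀ u ∈ Set.Icc (0 : ℝ) 1, f (Function.update y j (α + u * (β - α))) =
      g (Function.update y j (α + u * (β - α))) := fun u hu => hfg _ (upd_lt hy (seg_lt hα hβ hu))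
  show |g _ - g _| ≤ _
  rw [← h1 u hu, ← h1 u' hu']
  exact h y hy j α β hα hβ A (fun v hv => by
    show |f _| ≤ _
    rw [h1 v hv]
    exact hA v hv) u hu u' hu'

variable {Y : Fin e → ℝ} {al : ℕ → Set ((Fin e → ℝ) → ℝ)}

/-- partial derivatives -/
theorem Cl.pd (h : Alg e Y al) {D : ℕ} {f : (Fin e → ℝ) → ℝ} (hf : f ∈ Cl Y al D) (i : Fin e) :
    TAY.pd i f ∈ Cl Y al (D + 1) ∧ ∀ y : Fin e → ℝ, (∀ j, |y j - Y j| < 1) →
      HasDerivAt (fun t => f (Function.update y i t)) (TAY.pd i f y) (y i) := by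
  obtain ⟨g, hg, hfg⟩ := hf
  obtain ⟨g', hg', hd⟩ := h.der D g hg i
  have key : ∀ y : Fin e → ℝ, (∀ j, |y j - Y j| < 1) →
      HasDerivAt (fun t => f (Function.update y i t)) (g' y) (y i) := by
    intro y hy
    refine (hd y hy).congr_of_eventuallyEq ?_
    have h1 : ∀ᶠ t in 𝓝 (y i), |t - Y i| < 1 := by
      have h2 : Continuous fun t : ℝ => |t - Y i| := by fun_prop
      exact h2.continuousAt.eventually (gt_mem_nhds (hy i))
    filter_upwards [h1] with t ht
    exact hfg _ (upd_lt hy ht)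
  refine ⟨⟨g', hg', fun y hy => (key y hy).deriv⟩, fun y hy => ?_⟩
  have h1 := key y hy
  have h2 : TAY.pd i f y = g' y := h1.deriv
  rw [h2]
  exact h1

theorem Cl.mono (h : Alg e Y al) {D D' : ℕ} (hD : D ≤ D') : Cl Y al D ⊆ Cl Y al D' := by
  rintro f ⟨g, hg, hfg⟩
  exact ⟨g, h.mono D D' hD hg, hfg⟩

theorem Cl.pdn (h : Alg e Y al) {D : ℕ} {f : (Fin e → ℝ) → ℝ} (hf : f ∈ Cl Y al D) (i : Fin e) (a : ℕ) :
    TAY.pdn i a f ∈ Cl Y al (D + a) := by
  induction a with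
  | zero => exact hf
  | succ a ih =>
    rw [pdn_succ]
    exact (Cl.pd h ih i).1

theorem Cl.axB {K : ℝ} {Dm : ℕ} (h : Alg e Y al) (hB : ∀ g ∈ al Dm, AxB K Y g) {D : ℕ} (hD : D ≤ Dm)
    {f : (Fin e → ℝ) → ℝ} (hf : f ∈ Cl Y al D) : AxB K Y f := by
  obtain ⟨g, hg, hfg⟩ := hf
  exact (hB g (h.mono D Dm hD hg)).congr fun y hy => (hfg y hy).symm

/-- BERNSTEIN inequality for the derivative on the open cube of radius `ρ` -/
theorem pd_le {f : (Fin e → ℝ) → ℝ} {K ρ A : ℝ} (hB : AxB K Y f) (hK : 0 ≤ K) (hρ : 0 < ρ) (hρ1 : ρ ≤ 1)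
    (hA : ∀ y : Fin e → ℝ, (∀ i, |y i - Y i| < ρ) → |f y| ≤ A) (i : Fin e) (y : Fin e → ℝ)
    (hy : ∀ j, |y j - Y j| < ρ) (hd : HasDerivAt (fun t => f (Function.update y i t)) (TAY.pd i f y) (y i)) :
    |TAY.pd i f y| ≤ K / ρ * A := by
  have hA0 : 0 ≤ A := (abs_nonneg _).trans (hA y hy)
  set α : ℝ := (y i + (Y i - ρ)) / 2 with hα
  set β : ℝ := (y i + (Y i + ρ)) / 2 with hβ
  have hyi := abs_lt.1 (hy i)
  have h1 : |α - Y i| < ρ := by
    rw [abs_lt, hα]
    constructor <;> linarith [hyi.1, hyi.2]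
  have h2 : |β - Y i| < ρ := by
    rw [abs_lt, hβ]
    constructor <;> linarith [hyi.1, hyi.2]
  have h3 : β - α = ρ := by rw [hα, hβ]; ring
  have h4 : α < y i := by rw [hα]; linarith [hyi.1]
  have h5 : y i < β := by rw [hβ]; linarith [hyi.2]
  have hb := hB y (fun j => (hy j).trans_le hρ1) i α β (h1.trans_le hρ1) (h2.trans_le hρ1) A (by
    intro u hu
    show |f _| ≤ A
    apply hA
    apply upd_lt hy
    have h6 := abs_lt.1 h1
    have h7 := abs_lt.1 h2
    have e1 : α + u * (β - α) - Y i = (1 - u) * (α - Y i) + u * (β - Y i) := by ring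
    rw [e1, abs_lt]
    have h8 := hu.1
    have h9 := hu.2
    rcases eq_or_lt_of_le h8 with h10 | h10
    · rw [← h10]
      constructor <;> linarith [h6.1, h6.2]
    · constructor <;> nlinarith [h6.1, h6.2, h7.1, h7.2])
  have hpar : ∀ t, α + (t - α) / ρ * (β - α) = t := by
    intro t
    rw [h3, div_mul_cancel₀ _ hρ.ne']
    ring
  have hin : ∀ t, α ≤ t → t ≤ β → (t - α) / ρ ∈ Set.Icc (0 : ℝ) 1 := by
    intro t ht ht'
    constructor
    · exact div_nonneg (by linarith) hρ.le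
    · rw [div_le_one hρ]
      linarith
  have h6 := hd.le_of_lip' (C := K / ρ * A) (by positivity) (by
    filter_upwards [Ioo_mem_nhds h4 h5] with t ht
    have h7 := hb ((t - α) / ρ) (hin t ht.1.le ht.2.le) ((y i - α) / ρ) (hin _ h4.le h5.le)
    have h8 : |f (Function.update y i (α + (t - α) / ρ * (β - α))) -
        f (Function.update y i (α + (y i - α) / ρ * (β - α)))| ≤ K * |(t - α) / ρ - (y i - α) / ρ| * A := h7
    rw [hpar, hpar] at h8
    rw [Real.norm_eq_abs, Real.norm_eq_abs]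
    refine h8.trans (le_of_eq ?_)
    have e1 : (t - α) / ρ - (y i - α) / ρ = (t - y i) / ρ := by ring
    rw [e1, abs_div, abs_of_pos hρ]
    ring)
  rwa [Real.norm_eq_abs] at h6

/-- iterated derivatives -/
theorem pdn_le {K : ℝ} {Dm : ℕ} (h : Alg e Y al) (hK : 0 ≤ K) (hB : ∀ g ∈ al Dm, AxB K Y g) {D : ℕ}
    {f : (Fin e → ℝ) → ℝ} (hf : f ∈ Cl Y al D) {ρ A : ℝ} (hρ : 0 < ρ) (hρ1 : ρ ≤ 1)
    (hA : ∀ y : Fin e → ℝ, (∀ i, |y i - Y i| < ρ) → |f y| ≤ A) (i : Fin e) (a : ℕ) (hD : D + a ≤ Dm + 1)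
    (y : Fin e → ℝ) (hy : ∀ j, |y j - Y j| < ρ) : |TAY.pdn i a f y| ≤ (K / ρ) ^ a * A := by
  induction a generalizing y with
  | zero =>
    rw [pow_zero, one_mul]
    exact hA y hy
  | succ a ih =>
    rw [pdn_succ]
    have h1 := pd_le (f := TAY.pdn i a f) (K := K) (ρ := ρ) (A := (K / ρ) ^ a * A)
      (Cl.axB h hB (by omega) (Cl.pdn h hf i a)) hK hρ hρ1 (fun z hz => ih (by omega) z hz) i y hy
      ((Cl.pd h (Cl.pdn h hf i a) i).2 y fun j => (hy j).trans_le hρ1)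
    refine h1.trans (le_of_eq ?_)
    rw [pow_succ]
    ring

/-! ### Taylor formula in one variable -/

theorem hasDerivAt_tay (a : ℝ) (c : ℕ → ℝ) (k : ℕ) (t : ℝ) :
    HasDerivAt (fun t => ∑ m ∈ range (k + 2), (t - a) ^ m / (m.factorial : ℝ) * c m)
      (∑ m ∈ range (k + 1), (t - a) ^ m / (m.factorial : ℝ) * c (m + 1)) t := by
  have e1 : (fun t => ∑ m ∈ range (k + 2), (t - a) ^ m / (m.factorial : ℝ) * c m) =
      fun t => (∑ m ∈ range (k + 1), (t - a) ^ (m + 1) / ((m + 1).factorial : ℝ) * c (m + 1)) + c 0 := by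
    funext t
    rw [Finset.sum_range_succ']
    simp
  rw [e1]
  apply HasDerivAt.add_const
  apply HasDerivAt.fun_sum
  intro m _
  have h1 : HasDerivAt (fun t : ℝ => (t - a) ^ (m + 1)) (((m + 1 : ℕ) : ℝ) * (t - a) ^ m * 1) t := by
    have := ((hasDerivAt_id' t).sub_const a).fun_pow (m + 1)
    simpa using this
  have h2 := (h1.div_const ((m + 1).factorial : ℝ)).mul_const (c (m + 1))
  refine h2.congr_deriv ?_
  have h3 : ((m + 1).factorial : ℝ) = (m + 1 : ℕ) * (m.factorial : ℝ) := by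
    rw [Nat.factorial_succ]
    push_cast
    ring
  have h4 : (m.factorial : ℝ) ≠ 0 := by exact_mod_cast Nat.factorial_ne_zero m
  have h5 : ((m + 1 : ℕ) : ℝ) ≠ 0 := by positivity
  rw [h3]
  field_simp

/-- TAYLOR FORMULA for a chain of derivatives on an interval -/
theorem taylor1 (k : ℕ) (φ : ℕ → ℝ → ℝ) (s : Set ℝ) (hs : Convex ℝ s)
    (hd : ∀ m, m ≤ k → ∀ t ∈ s, HasDerivAt (φ m) (φ (m + 1) t) t) (B : ℝ) (hB : ∀ t ∈ s, |φ (k + 1) t| ≤ B)
    (a t : ℝ) (ha : a ∈ s) (ht : t ∈ s) :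
    |φ 0 t - ∑ m ∈ range (k + 1), (t - a) ^ m / (m.factorial : ℝ) * φ m a| ≤ B * |t - a| ^ (k + 1) := by
  induction k generalizing φ t with
  | zero =>
    have h1 := hs.norm_image_sub_le_of_norm_hasDerivWithin_le (f := φ 0) (f' := φ 1) (C := B)
      (fun x hx => (hd 0 le_rfl x hx).hasDerivWithinAt) (fun x hx => by
        rw [Real.norm_eq_abs]; exact hB x hx) ha ht
    rw [Real.norm_eq_abs, Real.norm_eq_abs] at h1
    simpa using h1
  | succ k ih =>
    have h0 : 0 ≤ B := (abs_nonneg _).trans (hB a ha)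
    -- on the segment
    set s' : Set ℝ := s ∩ Set.uIcc a t with hs'
    have hs'c : Convex ℝ s' := hs.inter (convex_uIcc a t)
    have ha' : a ∈ s' := ⟨ha, Set.left_mem_uIcc⟩
    have ht' : t ∈ s' := ⟨ht, Set.right_mem_uIcc⟩
    have h1 := hs'c.norm_image_sub_le_of_norm_hasDerivWithin_le
      (f := fun t => φ 0 t - ∑ m ∈ range (k + 2), (t - a) ^ m / (m.factorial : ℝ) * φ m a)
      (f' := fun t => φ 1 t - ∑ m ∈ range (k + 1), (t - a) ^ m / (m.factorial : ℝ) * φ (m + 1) a)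
      (C := B * |t - a| ^ (k + 1)) (fun x hx =>
        ((hd 0 (Nat.zero_le _) x hx.1).sub (hasDerivAt_tay a (fun m => φ m a) k x)).hasDerivWithinAt) (fun x hx => by
        rw [Real.norm_eq_abs]
        refine (ih (fun m => φ (m + 1)) (fun m hm y hy => hd (m + 1) (by omega) y hy) hB x hx.1).trans ?_
        apply mul_le_mul_of_nonneg_left _ h0
        apply pow_le_pow_left₀ (abs_nonneg _)
        have h2 := hx.2
        rw [Set.mem_uIcc] at h2
        rcases h2 with h2 | h2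
        · rw [abs_of_nonneg (by linarith [h2.1]), abs_of_nonneg (by linarith [h2.1, h2.2])]
          linarith [h2.2]
        · rw [abs_of_nonpos (by linarith [h2.2]), abs_of_nonpos (by linarith [h2.1, h2.2])]
          linarith [h2.1]) ha' ht'
    rw [Real.norm_eq_abs, Real.norm_eq_abs] at h1
    have h2 : (∑ m ∈ range (k + 2), (a - a) ^ m / (m.factorial : ℝ) * φ m a) = φ 0 a := by
      rw [Finset.sum_range_succ']
      simp
    have h3 : |(φ 0 t - ∑ m ∈ range (k + 2), (t - a) ^ m / (m.factorial : ℝ) * φ m a) -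
        (φ 0 a - ∑ m ∈ range (k + 2), (a - a) ^ m / (m.factorial : ℝ) * φ m a)| ≤ B * |t - a| ^ (k + 1) * |t - a| := h1
    rw [h2, sub_self, sub_zero] at h3
    refine h3.trans (le_of_eq ?_)
    rw [pow_succ _ (k + 1)]
    ring

/-- TAYLOR FORMULA in one coordinate of the cube -/
theorem taylor_coord {K : ℝ} {Dm : ℕ} (h : Alg e Y al) (hK : 0 ≤ K) (hB : ∀ g ∈ al Dm, AxB K Y g) {D : ℕ}
    {f : (Fin e → ℝ) → ℝ} (hf : f ∈ Cl Y al D) {A : ℝ}
    (hA : ∀ y : Fin e → ℝ, (∀ i, |y i - Y i| < 1) → |f y| ≤ A) (i : Fin e) (k : ℕ) (hD : D + (k + 1) ≤ Dm + 1)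
    (y : Fin e → ℝ) (hy : ∀ j, |y j - Y j| < 1) (x : ℝ) (hx : |x - Y i| < 1) :
    |f y - ∑ a ∈ range (k + 1), (y i - x) ^ a / (a.factorial : ℝ) * TAY.pdn i a f (Function.update y i x)| ≤
      K ^ (k + 1) * A * |y i - x| ^ (k + 1) := by
  have hconv : Convex ℝ {t : ℝ | |t - Y i| < 1} := by
    have h1 : {t : ℝ | |t - Y i| < 1} = Set.Ioo (Y i - 1) (Y i + 1) := by
      ext t
      rw [Set.mem_ofPred_eq, abs_lt, Set.mem_Ioo]
      constructor <;> rintro ⟨a, b⟩ <;> constructor <;> linarith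
    rw [h1]
    exact convex_Ioo _ _
  have h1 := taylor1 k (fun m t => TAY.pdn i m f (Function.update y i t)) {t : ℝ | |t - Y i| < 1} hconv (by
    intro m hm t ht
    have h2 := (Cl.pd h (Cl.pdn h hf i m) i).2 (Function.update y i t) (upd_lt hy ht)
    rw [Function.update_self] at h2
    have e1 : (fun s => TAY.pdn i m f (Function.update (Function.update y i t) i s)) =
        fun s => TAY.pdn i m f (Function.update y i s) := by
      funext s
      rw [Function.update_idem]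
    rw [e1, ← pdn_succ] at h2
    exact h2) (K ^ (k + 1) * A) (by
    intro t ht
    have h2 := pdn_le h hK hB hf one_pos le_rfl hA i (k + 1) hD (Function.update y i t) (upd_lt hy ht)
    rwa [div_one] at h2) x (y i) hx (hy i)
  simp only [Function.update_eq_self, pdn_zero] at h1
  exact h1

end

end Pool.Agent.Helper89.TAY
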