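import Pool.Agent.Helper36.AM.St
import Pool.Agent.Helper89.TAY.Aff

/-! UNIFORM DEGREES AT ALL CORNERS: by `DGR` for the polynomial leaves of bounded degree the canonical form of bounded
degree of a truncated zoom has already the volume of the hull, whatever the complexity of the leaves of the system. -/

set_option autoImplicit false

namespace Pool.Agent.Helper89.TAY

open Finset Filter Topology Matrix Pool.Agent.Helper69.RK Pool.Agent.Helper31.EC Pool.Agent.Helper31.EC.Sp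
open Pool.Agent.Helper40.EL Pool.Agent.Helper84.MT Pool.Agent.Helper3.LF Pool.Agent.Helper89.LX
open Pool.Agent.Helper36.AM (volO DGR)

noncomputable section

theorem aff_volO {S : Sp} {M : ℕ} {E : ℕ → ℕ} {ι : Type} [Finite ι] {s : MSys S M E ι} (Z : ZM s) (hc : 0 < Z.c)
    {t : ℝ} (h0 : 0 < t) (h1 : t ≤ 1) {g : ℕ} (hg : 1 ≤ g) (hr : Z.e * t ≤ Z.c * g) (he : ∀ i, (s.lf i).e ≤ g) (b : ℝ) :
    volO (aff Z hc h0 h1 hg hr he) b = volO (Z.sys.trn t h0 h1) b := by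
  have h2 : (fun D => (aff Z hc h0 h1 hg hr he).vol D b) = fun D => (Z.sys.trn t h0 h1).vol D b :=
    funext fun D => aff_vol Z hc h0 h1 hg hr he D b
  show (⨅ D, (aff Z hc h0 h1 hg hr he).vol D b) = ⨅ D, (Z.sys.trn t h0 h1).vol D b
  rw [h2]

/-- DGR AT CORNERS: the degree depends only on `M`, on the number of types and on `g`, `(1 - c) t ≤ c g` -/
theorem dgr_corner {M : ℕ} (hD : DGR M) (hst : ∀ m, m < M → ST m) (g r : ℕ) (hg : 1 ≤ g) : ∃ D₁ : ℕ, ∀ D, D₁ ≤ D →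
    ∀ (S : Sp) (E : ℕ → ℕ) (s : MSys S M E (Fin r)) (Z : ZM s) (t : ℝ) (h0 : 0 < t) (h1 : t ≤ 1), 0 < Z.c →
      Z.e * t ≤ Z.c * g → (∀ i, (s.lf i).e ≤ g) → (Z.sys.trn t h0 h1).vol D 0 ≤ volO (Z.sys.trn t h0 h1) 0 := by
  obtain ⟨D₁, h⟩ := hD hst g r
  refine ⟨D₁, fun D hDD S E s Z t h0 h1 hc hr he => ?_⟩
  rw [← aff_vol Z hc h0 h1 hg hr he, ← aff_volO Z hc h0 h1 hg hr he]
  exact h D hDD _ _

end

end Pool.Agent.Helper89.TAY
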