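import Pool.Agent.Helper89.TAY.Der

/-! TAYLOR polynomials of the functions of a filtered differential algebra, finite level: several variables. -/

set_option autoImplicit false

namespace Pool.Agent.Helper89.TAY

open Finset Filter Topology Pool.Agent.Helper84.MT

noncomputable section

variable {e : ℕ}

/-- the Taylor polynomial in the coordinates of the list, in the variables `(y - x) / ρ` -/
def tayP (k : ℕ) (ρ : ℝ) (x : Fin e → ℝ) : List (Fin e) → ((Fin e → ℝ) → ℝ) → MvPolynomial (Fin e) ℝ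
  | [], f => MvPolynomial.C (f x)
  | (i :: r), f => ∑ a ∈ range (k + 1),
      MvPolynomial.monomial (Finsupp.single i a) (ρ ^ a / (a.factorial : ℝ)) * tayP k ρ x r (pdn i a f)

theorem prod_sgl (z : Fin e → ℝ) (i : Fin e) (a : ℕ) : ((Finsupp.single i a).prod fun n e => z n ^ e) = z i ^ a :=
  Finsupp.prod_single_index (h := fun n e => z n ^ e) (pow_zero _)

theorem tayP_congr {k : ℕ} {ρ : ℝ} {x : Fin e → ℝ} (r : List (Fin e)) (f : (Fin e → ℝ) → ℝ) (z z' : Fin e → ℝ)
    (h : ∀ j ∈ r, z j = z' j) : MvPolynomial.eval z (tayP k ρ x r f) = MvPolynomial.eval z' (tayP k ρ x r f) := by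
  induction r generalizing f with
  | nil => rw [tayP, MvPolynomial.eval_C, MvPolynomial.eval_C]
  | cons i r ih =>
    rw [tayP, map_sum, map_sum]
    apply Finset.sum_congr rfl
    intro a _
    rw [map_mul, map_mul, ih _ (fun j hj => h j (List.mem_cons_of_mem _ hj)), MvPolynomial.eval_monomial,
      MvPolynomial.eval_monomial]
    congr 2
    rw [prod_sgl, prod_sgl, h i List.mem_cons_self]

theorem tayP_deg {k : ℕ} {ρ : ℝ} {x : Fin e → ℝ} (r : List (Fin e)) (f : (Fin e → ℝ) → ℝ) :
    (tayP k ρ x r f).totalDegree ≤ r.length * k := by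
  induction r generalizing f with
  | nil =>
    rw [tayP, MvPolynomial.totalDegree_C]
    exact Nat.zero_le _
  | cons i r ih =>
    rw [tayP]
    refine MvPolynomial.totalDegree_finsetSum_le fun a ha => ?_
    refine (MvPolynomial.totalDegree_mul _ _).trans ?_
    have h1 : (MvPolynomial.monomial (Finsupp.single i a) (ρ ^ a / (a.factorial : ℝ))).totalDegree ≤ k := by
      refine (MvPolynomial.totalDegree_monomial_le _ _).trans ?_
      rw [Finsupp.sum_single_index rfl]
      exact Nat.le_of_lt_succ (Finset.mem_range.1 ha)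
    have h2 := ih (pdn i a f)
    rw [List.length_cons, Nat.succ_mul]
    omega

/-- the constant of the remainder -/
def CC (k : ℕ) (K : ℝ) : ℕ → ℝ
  | 0 => 0
  | (n + 1) => K ^ (k + 1) * (1 + (k + 1) * CC k K n)

theorem CC_nonneg {k : ℕ} {K : ℝ} (hK : 0 ≤ K) (n : ℕ) : 0 ≤ CC k K n := by
  induction n with
  | zero => exact le_rfl
  | succ n ih =>
    rw [CC]
    positivity

variable {Y : Fin e → ℝ} {al : ℕ → Set ((Fin e → ℝ) → ℝ)}

/-- REMAINDER -/
theorem tayP_rem {K : ℝ} {Dm : ℕ} (h : Alg e Y al) (hK : 1 ≤ K) (hB : ∀ g ∈ al Dm, AxB K Y g) (k : ℕ) {ρ : ℝ}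
    (hρ : 0 < ρ) (x : Fin e → ℝ) (hx : ∀ i, |x i - Y i| < 1) (r : List (Fin e)) (hr : r.Nodup) {D : ℕ}
    (hD : D + r.length * (k + 1) ≤ Dm + 1) {f : (Fin e → ℝ) → ℝ} (hf : f ∈ Cl Y al D) {A : ℝ}
    (hA : ∀ y : Fin e → ℝ, (∀ i, |y i - Y i| < 1) → |f y| ≤ A) {σ : ℝ} (hσ : σ ≤ 1) (y : Fin e → ℝ)
    (hy : ∀ i, |y i - Y i| < 1) (hyσ : ∀ i, |y i - x i| ≤ σ) (hoff : ∀ i, i ∉ r → y i = x i) :
    |f y - MvPolynomial.eval (fun i => (y i - x i) / ρ) (tayP k ρ x r f)| ≤ CC k K r.length * A * σ ^ (k + 1) := by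
  induction r generalizing f y D A with
  | nil =>
    have h1 : y = x := funext fun i => hoff i List.not_mem_nil
    rw [tayP, MvPolynomial.eval_C, h1, sub_self, abs_zero]
    simp [CC]
  | cons i r ih =>
    have hA0 : 0 ≤ A := (abs_nonneg _).trans (hA y hy)
    have hσ0 : 0 ≤ σ := (abs_nonneg _).trans (hyσ i)
    rw [List.nodup_cons] at hr
    rw [List.length_cons, Nat.succ_mul] at hD
    set y' : Fin e → ℝ := Function.update y i (x i) with hy'
    have hy'1 : ∀ j, |y' j - Y j| < 1 := upd_lt hy (hx i)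
    have hy'σ : ∀ j, |y' j - x j| ≤ σ := by
      intro j
      by_cases hj : j = i
      · subst hj
        rw [hy', Function.update_self, sub_self, abs_zero]
        exact hσ0
      · rw [hy', Function.update_of_ne hj]
        exact hyσ j
    have hy'off : ∀ j, j ∉ r → y' j = x j := by
      intro j hj
      by_cases hji : j = i
      · subst hji
        rw [hy', Function.update_self]
      · rw [hy', Function.update_of_ne hji]
        apply hoff
        intro hc
        rcases List.mem_cons.1 hc with h1 | h1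
        · exact hji h1
        · exact hj h1
    have h1 := taylor_coord h (by linarith) hB hf hA i k (by omega) y hy (x i) (hx i)
    -- evaluation of the polynomial
    have h2 : MvPolynomial.eval (fun i => (y i - x i) / ρ) (tayP k ρ x (i :: r) f) =
        ∑ a ∈ range (k + 1), (y i - x i) ^ a / (a.factorial : ℝ) *
          MvPolynomial.eval (fun i => (y' i - x i) / ρ) (tayP k ρ x r (pdn i a f)) := by
      rw [tayP, map_sum]
      apply Finset.sum_congr rfl
      intro a _
      rw [map_mul, MvPolynomial.eval_monomial, prod_sgl]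
      have e1 : MvPolynomial.eval (fun i => (y i - x i) / ρ) (tayP k ρ x r (pdn i a f)) =
          MvPolynomial.eval (fun i => (y' i - x i) / ρ) (tayP k ρ x r (pdn i a f)) := by
        apply tayP_congr
        intro j hj
        have hji : j ≠ i := fun hc => hr.1 (hc ▸ hj)
        rw [hy', Function.update_of_ne hji]
      rw [e1]
      congr 1
      rw [div_pow]
      field_simp
    have h3 : ∀ a ∈ range (k + 1), |(y i - x i) ^ a / (a.factorial : ℝ) * TAY.pdn i a f y' -
        (y i - x i) ^ a / (a.factorial : ℝ) *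
          MvPolynomial.eval (fun i => (y' i - x i) / ρ) (tayP k ρ x r (pdn i a f))| ≤
        K ^ (k + 1) * (CC k K r.length * A * σ ^ (k + 1)) := by
      intro a ha
      have hak : a ≤ k := Nat.le_of_lt_succ (Finset.mem_range.1 ha)
      rw [← mul_sub, abs_mul]
      have e1 : |(y i - x i) ^ a / (a.factorial : ℝ)| ≤ 1 := by
        rw [abs_div, abs_pow]
        have f1 : (1 : ℝ) ≤ |(a.factorial : ℝ)| := by
          rw [abs_of_nonneg (by positivity)]
          exact_mod_cast Nat.one_le_iff_ne_zero.2 (Nat.factorial_ne_zero a)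
        have f2 : |y i - x i| ^ a ≤ 1 := pow_le_one₀ (abs_nonneg _) ((hyσ i).trans hσ)
        rw [div_le_one (by linarith)]
        linarith
      have e2 := ih hr.2 (D := D + a) (by omega) (f := TAY.pdn i a f) (Cl.pdn h hf i a) (A := K ^ a * A)
        (fun z hz => by
          have := pdn_le h (by linarith) hB hf one_pos le_rfl hA i a (by omega) z hz
          rwa [div_one] at this) y' hy'1 hy'σ hy'off
      have hCC := CC_nonneg (k := k) (K := K) (by linarith) r.length
      have e3 : K ^ a ≤ K ^ (k + 1) := pow_le_pow_right₀ hK (by omega)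
      have hKp : 0 ≤ K ^ a := by positivity
      calc |(y i - x i) ^ a / (a.factorial : ℝ)| * |TAY.pdn i a f y' -
            MvPolynomial.eval (fun i => (y' i - x i) / ρ) (tayP k ρ x r (pdn i a f))|
          ≤ 1 * (CC k K r.length * (K ^ a * A) * σ ^ (k + 1)) :=
            mul_le_mul e1 e2 (abs_nonneg _) zero_le_one
        _ = K ^ a * (CC k K r.length * A * σ ^ (k + 1)) := by ring
        _ ≤ _ := mul_le_mul_of_nonneg_right e3 (by positivity)
    have h4 : |∑ a ∈ range (k + 1), (y i - x i) ^ a / (a.factorial : ℝ) * TAY.pdn i a f y' -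
        MvPolynomial.eval (fun i => (y i - x i) / ρ) (tayP k ρ x (i :: r) f)| ≤
        (k + 1) * (K ^ (k + 1) * (CC k K r.length * A * σ ^ (k + 1))) := by
      rw [h2, ← Finset.sum_sub_distrib]
      refine (Finset.abs_sum_le_sum_abs _ _).trans ?_
      refine (Finset.sum_le_card_nsmul _ _ _ h3).trans (le_of_eq ?_)
      rw [Finset.card_range, nsmul_eq_mul]
      push_cast
      ring
    have h5 : K ^ (k + 1) * A * |y i - x i| ^ (k + 1) ≤ K ^ (k + 1) * A * σ ^ (k + 1) := by
      apply mul_le_mul_of_nonneg_left _ (by positivity)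
      exact pow_le_pow_left₀ (abs_nonneg _) (hyσ i) _
    rw [List.length_cons, CC]
    have h6 := abs_add_le (f y - ∑ a ∈ range (k + 1), (y i - x i) ^ a / (a.factorial : ℝ) * TAY.pdn i a f y')
      (∑ a ∈ range (k + 1), (y i - x i) ^ a / (a.factorial : ℝ) * TAY.pdn i a f y' -
        MvPolynomial.eval (fun i => (y i - x i) / ρ) (tayP k ρ x (i :: r) f))
    rw [sub_add_sub_cancel] at h6
    refine h6.trans ((add_le_add (h1.trans h5) h4).trans (le_of_eq ?_))
    ring

/-- COEFFICIENTS -/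
theorem tayP_coeff {K : ℝ} {Dm : ℕ} (h : Alg e Y al) (hK : 1 ≤ K) (hB : ∀ g ∈ al Dm, AxB K Y g) (k : ℕ) {ρ ρ₁ : ℝ}
    (hρ : 0 < ρ) (hρρ : ρ ≤ ρ₁) (hρ1 : ρ₁ ≤ 1) (x : Fin e → ℝ) (hx : ∀ i, |x i - Y i| < ρ₁) (r : List (Fin e)) {D : ℕ}
    (hD : D + r.length * k ≤ Dm + 1) {f : (Fin e → ℝ) → ℝ} (hf : f ∈ Cl Y al D) {A : ℝ}
    (hA : ∀ y : Fin e → ℝ, (∀ i, |y i - Y i| < ρ₁) → |f y| ≤ A) (m : Fin e →₀ ℕ) :
    |(tayP k ρ x r f).coeff m| ≤ (ρ / ρ₁) ^ (m.degree) * (((k : ℝ) + 1) * K ^ k) ^ r.length * A := by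
  classical
  have hρ₁ : 0 < ρ₁ := hρ.trans_le hρρ
  have hq0 : 0 < ρ / ρ₁ := by positivity
  have hq1 : ρ / ρ₁ ≤ 1 := (div_le_one hρ₁).2 hρρ
  induction r generalizing f D A m with
  | nil =>
    have hA0 : 0 ≤ A := (abs_nonneg _).trans (hA x hx)
    rw [tayP, MvPolynomial.coeff_C, List.length_nil, pow_zero, mul_one]
    split_ifs with h1
    · rw [← h1]
      simpa using hA x hx
    · rw [abs_zero]
      positivity
  | cons i r ih =>
    have hA0 : 0 ≤ A := (abs_nonneg _).trans (hA x hx)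
    rw [List.length_cons, Nat.succ_mul] at hD
    rw [tayP, MvPolynomial.coeff_sum]
    refine (Finset.abs_sum_le_sum_abs _ _).trans ?_
    have h3 : ∀ a ∈ range (k + 1), |(MvPolynomial.monomial (Finsupp.single i a) (ρ ^ a / (a.factorial : ℝ)) *
        tayP k ρ x r (pdn i a f)).coeff m| ≤ (ρ / ρ₁) ^ m.degree * (((k : ℝ) + 1) * K ^ k) ^ r.length * A * K ^ k := by
      intro a ha
      have hak : a ≤ k := Nat.le_of_lt_succ (Finset.mem_range.1 ha)
      rw [MvPolynomial.coeff_monomial_mul']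
      split_ifs with hle
      · have e2 := ih (D := D + a) (by omega) (f := TAY.pdn i a f) (Cl.pdn h hf i a) (A := (K / ρ₁) ^ a * A)
          (fun z hz => pdn_le h (by linarith) hB hf hρ₁ hρ1 hA i a (by omega) z hz) (m - Finsupp.single i a)
        rw [abs_mul]
        have e1 : |ρ ^ a / (a.factorial : ℝ)| ≤ ρ ^ a := by
          rw [abs_of_nonneg (by positivity)]
          apply div_le_self (by positivity)
          exact_mod_cast Nat.one_le_iff_ne_zero.2 (Nat.factorial_ne_zero a)
        have e3 : m.degree = (m - Finsupp.single i a).degree + a := by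
          have h5 : m = (m - Finsupp.single i a) + Finsupp.single i a := (tsub_add_cancel_of_le hle).symm
          conv_lhs => rw [h5]
          rw [map_add, Finsupp.degree_single]
        have e4 : (ρ / ρ₁) ^ m.degree = (ρ / ρ₁) ^ (m - Finsupp.single i a).degree * (ρ ^ a / ρ₁ ^ a) := by
          rw [e3, pow_add, div_pow ρ ρ₁ a]
        have e5 : K ^ a ≤ K ^ k := pow_le_pow_right₀ hK hak
        calc |ρ ^ a / (a.factorial : ℝ)| * |(tayP k ρ x r (pdn i a f)).coeff (m - Finsupp.single i a)|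
            ≤ ρ ^ a * ((ρ / ρ₁) ^ (m - Finsupp.single i a).degree * (((k : ℝ) + 1) * K ^ k) ^ r.length *
              ((K / ρ₁) ^ a * A)) := mul_le_mul e1 e2 (abs_nonneg _) (by positivity)
          _ = (ρ / ρ₁) ^ m.degree * (((k : ℝ) + 1) * K ^ k) ^ r.length * A * K ^ a := by
              rw [e4, div_pow K ρ₁ a]
              ring
          _ ≤ _ := mul_le_mul_of_nonneg_left e5 (by positivity)
      · rw [abs_zero]
        positivity
    refine (Finset.sum_le_card_nsmul _ _ _ h3).trans (le_of_eq ?_)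
    rw [Finset.card_range, nsmul_eq_mul, List.length_cons, pow_succ]
    push_cast
    ring

/-! ### truncation -/

open Classical in
/-- truncation of a polynomial at the total degree `k` -/
def trc (k : ℕ) (P : MvPolynomial (Fin e) ℝ) : MvPolynomial (Fin e) ℝ :=
  ∑ m ∈ P.support.filter (fun m => m.degree ≤ k), MvPolynomial.monomial m (P.coeff m)

theorem trc_coeff (k : ℕ) (P : MvPolynomial (Fin e) ℝ) (m : Fin e →₀ ℕ) :
    (trc k P).coeff m = if m.degree ≤ k then P.coeff m else 0 := by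
  classical
  unfold trc
  rw [MvPolynomial.coeff_sum]
  simp only [MvPolynomial.coeff_monomial]
  rw [Finset.sum_ite_eq' _ m (fun m => P.coeff m)]
  by_cases h1 : m.degree ≤ k
  · rw [if_pos h1]
    by_cases h2 : m ∈ P.support
    · rw [if_pos (Finset.mem_filter.2 ⟨h2, h1⟩)]
    · rw [if_neg (fun hc => h2 (Finset.mem_filter.1 hc).1)]
      exact (MvPolynomial.notMem_support_iff.1 h2).symm
  · rw [if_neg h1]
    have h2 : m ∉ P.support.filter (fun m => m.degree ≤ k) := fun hc => h1 (Finset.mem_filter.1 hc).2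
    exact if_neg h2

theorem trc_deg (k : ℕ) (P : MvPolynomial (Fin e) ℝ) : (trc k P).totalDegree ≤ k := by
  classical
  unfold trc
  refine MvPolynomial.totalDegree_finsetSum_le fun m hm => ?_
  refine (MvPolynomial.totalDegree_monomial_le _ _).trans ?_
  have h1 := (Finset.mem_filter.1 hm).2
  have h2 : (m.sum fun _ e => e) = m.degree := by
    rw [Finsupp.sum, Finsupp.degree_apply]
  show (m.sum fun _ e => e) ≤ k
  rw [h2]
  exact h1

/-- the truncation error -/
theorem trc_err (k g : ℕ) (P : MvPolynomial (Fin e) ℝ) (hP : P.totalDegree ≤ g) (c τ : ℝ) (hc : 0 ≤ c) (hτ : 1 ≤ τ)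
    (h : ∀ m : Fin e →₀ ℕ, k < m.degree → |P.coeff m| ≤ c) (z : Fin e → ℝ) (hz : ∀ i, |z i| ≤ τ) :
    |MvPolynomial.eval z P - MvPolynomial.eval z (trc k P)| ≤ ((g : ℝ) + 1) ^ e * (c * τ ^ g) := by
  classical
  have h1 : MvPolynomial.eval z P - MvPolynomial.eval z (trc k P) =
      ∑ m ∈ P.support.filter (fun m => ¬ m.degree ≤ k), P.coeff m * ∏ i, z i ^ m i := by
    rw [MvPolynomial.eval_eq' z P]
    unfold trc
    rw [map_sum]
    have e1 : ∀ m, MvPolynomial.eval z (MvPolynomial.monomial m (P.coeff m)) = P.coeff m * ∏ i, z i ^ m i := by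
      intro m
      rw [MvPolynomial.eval_monomial, Finsupp.prod_fintype _ _ (fun _ => pow_zero _)]
    simp only [e1]
    rw [← Finset.sum_filter_add_sum_filter_not P.support (fun m => m.degree ≤ k), add_sub_cancel_left]
  rw [h1]
  refine (Finset.abs_sum_le_sum_abs _ _).trans ?_
  have h2 : ∀ m ∈ P.support.filter (fun m => ¬ m.degree ≤ k), |P.coeff m * ∏ i, z i ^ m i| ≤ c * τ ^ g := by
    intro m hm
    obtain ⟨a1, a2⟩ := Finset.mem_filter.1 hm
    rw [abs_mul, Finset.abs_prod]
    apply mul_le_mul (h m (not_le.1 a2)) _ (by positivity) hc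
    have e1 : ∏ i, |z i ^ m i| ≤ ∏ i, τ ^ m i := by
      apply Finset.prod_le_prod (fun i _ => abs_nonneg _)
      intro i _
      rw [abs_pow]
      exact pow_le_pow_left₀ (abs_nonneg _) (hz i) _
    refine e1.trans ?_
    rw [Finset.prod_pow_eq_pow_sum]
    apply pow_le_pow_right₀ hτ
    have e2 : ∑ i, m i ≤ P.totalDegree := by
      have := MvPolynomial.le_totalDegree a1
      rwa [Finsupp.sum_fintype _ _ (fun _ => rfl)] at this
    omega
  refine (Finset.sum_le_card_nsmul _ _ _ h2).trans ?_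
  rw [nsmul_eq_mul]
  apply mul_le_mul_of_nonneg_right _ (by positivity)
  have h3 := support_card_le P hP
  have h4 : (P.support.filter (fun m => ¬ m.degree ≤ k)).card ≤ (g + 1) ^ e := (Finset.card_filter_le _ _).trans h3
  exact_mod_cast h4

/-- THE TAYLOR POLYNOMIAL of total degree `k` at the point `x`, in the variables `(y - x) / ρ` -/
def tayG (k : ℕ) (ρ : ℝ) (x : Fin e → ℝ) (f : (Fin e → ℝ) → ℝ) : MvPolynomial (Fin e) ℝ :=
  trc k (tayP k ρ x (List.finRange e) f)

theorem tayG_deg (k : ℕ) (ρ : ℝ) (x : Fin e → ℝ) (f : (Fin e → ℝ) → ℝ) : (tayG k ρ x f).totalDegree ≤ k :=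
  trc_deg _ _

/-- the constant of the coefficients -/
def CM (e k : ℕ) (K : ℝ) : ℝ := (((k : ℝ) + 1) * K ^ k) ^ e

/-- the constant of the remainder -/
def CT (e k : ℕ) (K : ℝ) : ℝ := CC k K e * 2 ^ (k + 1) + ((e * k : ℕ) + 1) ^ e * (CM e k K * 2 ^ (e * k))

theorem CM_nonneg (e k : ℕ) {K : ℝ} (hK : 0 ≤ K) : 0 ≤ CM e k K := by
  unfold CM
  positivity

theorem CT_nonneg (e k : ℕ) {K : ℝ} (hK : 0 ≤ K) : 0 ≤ CT e k K := by
  unfold CT
  have := CM_nonneg e k hK
  have := CC_nonneg (k := k) hK e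
  positivity

/-- TAYLOR, finite form -/
theorem tayG_spec {K : ℝ} {Dm : ℕ} (h : Alg e Y al) (hK : 1 ≤ K) (hB : ∀ g ∈ al Dm, AxB K Y g) (k : ℕ) {ρ : ℝ}
    (hρ : 0 < ρ) (hρ2 : 2 * ρ ≤ 1) (x : Fin e → ℝ) (hx : ∀ i, |x i - Y i| < ρ) {D : ℕ} (hD : D + e * (k + 1) ≤ Dm + 1)
    {f : (Fin e → ℝ) → ℝ} (hf : f ∈ Cl Y al D) {A B : ℝ}
    (hA : ∀ y : Fin e → ℝ, (∀ i, |y i - Y i| < 1) → |f y| ≤ A)
    (hB' : ∀ y : Fin e → ℝ, (∀ i, |y i - Y i| < ρ) → |f y| ≤ B) :
    (∀ m, |(tayG k ρ x f).coeff m| ≤ CM e k K * B) ∧ ∀ y : Fin e → ℝ, (∀ i, |y i - Y i| < ρ) →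
      |f y - MvPolynomial.eval (fun i => (y i - x i) / ρ) (tayG k ρ x f)| ≤ CT e k K * A * ρ ^ (k + 1) := by
  have hρ1 : ρ ≤ 1 := by linarith
  have hlen : (List.finRange e).length = e := List.length_finRange
  have hD' : D + (List.finRange e).length * k ≤ Dm + 1 := by
    rw [hlen]
    have : e * (k + 1) = e * k + e := by ring
    omega
  have hx1 : ∀ i, |x i - Y i| < 1 := fun i => (hx i).trans_le hρ1
  have hA0 : 0 ≤ A := (abs_nonneg _).trans (hA x hx1)
  have hB0 : 0 ≤ B := (abs_nonneg _).trans (hB' x hx)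
  have hCM := CM_nonneg e k (K := K) (by linarith)
  constructor
  · intro m
    unfold tayG
    rw [trc_coeff]
    split_ifs
    · have h1 := tayP_coeff h hK hB k hρ le_rfl hρ1 x hx (List.finRange e) hD' hf hB' m
      rw [div_self hρ.ne', one_pow, one_mul, hlen] at h1
      exact h1
    · rw [abs_zero]
      positivity
  · intro y hy
    have hy1 : ∀ i, |y i - Y i| < 1 := fun i => (hy i).trans_le hρ1
    have hyx : ∀ i, |y i - x i| ≤ 2 * ρ := by
      intro i
      have h1 := abs_lt.1 (hx i)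
      have h2 := abs_lt.1 (hy i)
      rw [abs_le]
      constructor <;> linarith [h1.1, h1.2, h2.1, h2.2]
    have h1 := tayP_rem h hK hB k hρ x hx1 (List.finRange e) (List.nodup_finRange e)
      (by rw [hlen]; exact hD) hf hA hρ2 y hy1 hyx (fun i hi => absurd (List.mem_finRange i) hi)
    rw [hlen] at h1
    have h2 := trc_err k (e * k) (tayP k ρ x (List.finRange e) f) (by
      have := tayP_deg (k := k) (ρ := ρ) (x := x) (List.finRange e) f
      rwa [hlen] at this) (CM e k K * A * ρ ^ (k + 1)) 2 (by positivity) (by norm_num) (by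
      intro m hm
      have h3 := tayP_coeff h hK hB k hρ hρ1 le_rfl x hx1 (List.finRange e) hD' hf hA m
      rw [div_one, hlen] at h3
      refine h3.trans ?_
      have h4 : ρ ^ m.degree ≤ ρ ^ (k + 1) := pow_le_pow_of_le_one hρ.le hρ1 hm
      calc ρ ^ m.degree * (((k : ℝ) + 1) * K ^ k) ^ e * A ≤ ρ ^ (k + 1) * (((k : ℝ) + 1) * K ^ k) ^ e * A :=
            mul_le_mul_of_nonneg_right (mul_le_mul_of_nonneg_right h4 (by positivity)) hA0
        _ = _ := by unfold CM; ring) (fun i => (y i - x i) / ρ) (by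
      intro i
      rw [abs_div, abs_of_pos hρ, div_le_iff₀ hρ]
      exact hyx i)
    have h5 := abs_add_le (f y - MvPolynomial.eval (fun i => (y i - x i) / ρ) (tayP k ρ x (List.finRange e) f))
      (MvPolynomial.eval (fun i => (y i - x i) / ρ) (tayP k ρ x (List.finRange e) f) -
        MvPolynomial.eval (fun i => (y i - x i) / ρ) (trc k (tayP k ρ x (List.finRange e) f)))
    rw [sub_add_sub_cancel] at h5
    refine h5.trans ((add_le_add h1 h2).trans (le_of_eq ?_))
    unfold CT
    rw [mul_pow]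
    ring

end

end Pool.Agent.Helper89.TAY
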